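import Pool.Agent.J4H85.CD.Tail2
import Pool.Agent.J4H85.CD.Arr5
import Pool.Agent.J4H85.CD.Jun5
import Pool.Agent.J4H85.CD.Main5
import Pool.Agent.J4H4.CD.Low
import Pool.Agent.J4H52.CD.Qry
import Pool.Agent.J4H31.CD.Pair2
import Pool.Agent.J4H31.CD.Up2
import Pool.Agent.J4H17.CDC.Ari5

/-!
# 3SUM-Indexing: quadratic space for constant-depth circuits over arbitrary local predicates

Two arrays of `n` integers, below `2 ^ L`, are preprocessed. The memory has `s` cells of `w` bits.
Every bit of every cell is the value of a circuit (unbounded fan-in AND and OR, NOT) of depth at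
most `d` and size at most `2 ^ κ`. The inputs of the circuits are ARBITRARY predicates of at most
`r` of the `2 n` numbers: for instance the binary digits of the numbers, the digits of arbitrary hash
values, comparisons of two numbers, or `A₁[i] + A₂[j] = z` if `r ≥ 2`. The circuits and the
predicates are not uniform, different bits have different circuits, and everything may be random.
The query `z` reads `T` cells adaptively and answers whether `z` is the sum of an element of the
first array and an element of the second array; the rules for the next probe and for the answer are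
arbitrary functions. If every answer is correct with probability at least `1 / 2 + δ` then

  `δ ^ 11 * n ^ 2 ≤ 10 * (72 κ + 24 d + 24 r) ^ (6 (d + 1)) * s * (w T) ^ 5`.

So for circuits of polynomial (or quasipolynomial) size and constant depth over predicates of
polylogarithmically many numbers, words of `O(log n)` bits and polylogarithmic query time the space
is quadratic up to a polylogarithmic factor; and for space `n ^ (2 - ε)` and polylogarithmic query
time circuits of depth `d` must have size at least `2 ^ (n ^ (ε / (6 (d + 1)) - o(1)))`. The
definitions are in `Pool/Agent/J4H85/CD/LocDefs.lean` (`Atom`, `atoms`, `AtomDS`, `SolvesBelow`),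
`Pool/Agent/J4H85/CD/Defs.lean` (`rd`, `IsSum`) and `Pool/Agent/H568R2/Defs.lean` (`Circuit`).

The proof. Each array has `k` blocks with `u` positions. The element of block `i` and position `e`
of the first array is `e + 2 u i`, plus `2 ^ (L - 1)` if it is absent; in the second array it is
`(u - 1 - e) + 2 u k j`, plus `2 ^ (L - 1)` if it is absent. So the query `(u - 1) + 2 u i + 2 u k j`
asks if block `i` of the first array and block `j` of the second array have a common position. All
positions are present independently with probability `y / 2`, where `u y ^ 2 = δ ^ 2`. By the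
switching lemma, when most positions are fixed at random each bit of the memory becomes a decision
tree of depth `t = 3 κ + d + r`, except with probability `n ^ (-2) / 4`. It follows
that (1) with high probability every bit of the memory changes for at most `O(t ^ (d + 1) / y)`
positions `e` if one position is made present, and (2) the number of pairs of positions which
change a given bit only jointly is on average at most `O(t ^ (2 d + 2) / y ^ 2)`. If `s` is small
then for most triples `i, j, e` no bit of the memory changes only jointly if `e` is added to block `i`
of the first array and to block `j` of the second array, and by (1) for most `e` no cell read by the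
query changes at all. But the answer must change.
-/

set_option autoImplicit false

namespace Pool.Agent.Results.MP_e016b3_lc.ConstantDepthCells

open Pool.Agent.J4H85.CD

/-- Every random data structure for two arrays of `n ≤ 2 ^ κ` integers below `2 ^ L`, where
`4 n ^ 2 ≤ 2 ^ L`, with `s` cells of `w` bits, all computed by circuits of depth at most `d` and size
at most `2 ^ κ` from arbitrary predicates of `r` numbers, which answers every query of
3SUM-Indexing with `T` adaptive probes correctly with probability at least `1 / 2 + δ`, satisfies
`δ ^ 11 * n ^ 2 ≤ 10 * (72 κ + 24 d + 24 r) ^ (6 (d + 1)) * s * (w T) ^ 5`. -/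
theorem result (n L r s w T d κ : ℕ) (δ : ℝ) (hn : 1 ≤ n) (hκ : n ≤ 2 ^ κ)
    (hL : 4 * n ^ 2 ≤ 2 ^ L) (hr : 1 ≤ r) (hw : 1 ≤ w) (hT : 1 ≤ T) (hδ : 0 < δ)
    (hδ2 : δ ≤ 1 / 2) (Ω : Type) [Fintype Ω] (p : Ω → ℝ) (D : Ω → AtomDS n r s w)
    (hC : ∀ ω c b, ((D ω).mem c b).depth ≤ d ∧ ((D ω).mem c b).size ≤ 2 ^ κ)
    (hD : SolvesBelow L p D T δ) :
    δ ^ 11 * (n : ℝ) ^ 2 ≤
      10 * (72 * κ + 24 * d + 24 * r : ℝ) ^ (6 * (d + 1)) * s * (w * T) ^ 5 :=
  t_MAIN5 t_JUN5 t_ARR5
    (Pool.Agent.J4H31.CD.t_UP2 t_TAIL2 Pool.Agent.J4H31.CD.t_PAIR2 Pool.Agent.J4H52.CD.t_QRY)
    Pool.Agent.J4H4.CD.t_LOW Pool.Agent.J4H17.CDC.t_ARI5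
    n L r s w T d κ δ hn hκ hL hr hw hT hδ hδ2 Ω p D hC hD

end Pool.Agent.Results.MP_e016b3_lc.ConstantDepthCells
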