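import Pool.Agent.J4H22.IX.Main3

set_option autoImplicit false

/-!
# 3SUM-Indexing and Convolution-3SUM-Indexing are equivalent, also for random structures and unique sums

Definitions, for the cell-probe model (`Pool/Agent/J4H22/IX/Stm.lean` and `Pool/Agent/J4H22/IX/Stm3.lean`):

* `Tree ι V O`: an adaptive query procedure; it reads cells (with index in `ι` and content in `V`) one after the other and
  has a result in `O`; `Tree.eval m`: the result if the memory is `m`; `Tree.Probes t`: it reads at most `t` cells;
* `rep A B z`: the number of pairs `x ∈ A`, `y ∈ B` with `x + y = z`;
* `Structure O Ok n N s w t`: there is a query procedure for every `z`, with at most `t` probes into `s` cells of `w` bits,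
  such that for all sets `A`, `B` of at most `n` numbers below `N` some content of the memory makes the outputs for all `z`
  allowed, that is, `Ok A B z output` holds;
* `OkFull`: the answer to the question whether `z` is a sum; `OkWeak`: the same, but only if `rep A B z ≤ 1` (every other
  query may be answered in any way); `OkStrong`: if `z` is a sum, a pair `(x, y)` with `x + y = z` and a number `k` with
  `rep A B z ≤ 8 k` and `k ≤ 8 rep A B z`, otherwise `(none, 0)`;
* `Form O Ok c N`: there are `ε > 0` and `C` with structures for all `n ≥ 2`: numbers below `N n`, at most
  `C n ^ (2 - ε)` cells of `c ⌈log₂ n⌉` bits, at most `C ⌈log₂ n⌉ ^ C` probes;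
* `ConvSet n m A`: `A = {2 m i + α i}` for a partial function `α` from `{0, …, n - 1}` to `{0, …, m - 1}`; so for two such
  sets `2 m k + v`, `v < 2 m`, is a sum iff `α i + β (k - i) = v` for some `i`: this is Convolution-3SUM-Indexing;
* `RCStructure`: random structures for the sets of a class: the query procedures and the memory depend on (public) coins,
  and for all sets of the class and all `z` the output is allowed with probability at least `1 / 2 + δ`; `RCForm`: as
  `Form`, with advantage `1 / ((C + 1) ⌈log₂ n⌉ ^ C)`.

The second form is the negation of the conjecture of the problem in the cell-probe model.  So in this model the conjecture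
is equivalent to a much weaker looking one, for sequences of length `n` with values below `n / (log n) ^ D`, random
structures with a small advantage, queries with at most one representation, and one word length; and a structure for this
problem gives witnesses and the approximate number of representations for the general one.  There are only
`4 n ^ 2 / (log n) ^ D` relevant queries in the weak form, so that a table of all answers is trivially possible if the
values are below `n ^ (1 - ε)`: the weak form is the critical case.

Proof.  (1) Derandomisation: the majority of polylogarithmically many copies has error `1 / 64`; then `O(w n)` fixed coins
are good for all inputs (Newman) and for given `A`, `B` the majority of `2 (w + 1)` of them is right for all `z`; their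
indices are stored.  (2) A larger `n` gives sequences with `256 n` positions and values below `n`.  (3) Hashing.  Let `p` be
a prime of the order `2 ^ w` and `q` about `p / (256 n ^ 2)`.  For a multiplier `a` the map `h x = ⌊(a x mod p) / q⌋` is
almost linear: `h x + h y` is one of four numbers which depend on `x + y` only.  Divide `[0, 256 n ^ 2)` into `256 n` blocks
and delete all elements of `A` (of `B`) which share a block with another one.  For fixed `z` with at most one representation
all but an eighth of the multipliers are good: no false pair comes near to `z`, and the elements of the pair with sum `z`
are not deleted.  This fails for other `z`, but there is an own majority of the `2 (w + 1)` random multipliers for every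
`z`, so that overfull buckets do no harm.  (4) Isolation: for random subsets `S` of `A` of density `2 ^ (- i)` the number
`z` has exactly one representation with `x ∈ S` with probability at least `1 / 6`, if `i` fits; `O(w ^ 2)` subsets suffice
for all `z`.  (5) Witnesses: for every `S` and every bit two structures, for the elements with this bit equal to `1` and to
`0`; exactly one of the two answers is positive for every bit iff there is exactly one `x`, which is then known.
(6) Counting: for density `2 ^ (- i)` and `2 (w + 1)` random subsets the majority has a representation if
`rep A B z ≥ 4 * 2 ^ i`, and it has none if `8 rep A B z ≤ 2 ^ i`.
-/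

namespace Pool.Agent.Results.MP_e016b3_lc.ConvolutionForm

open Pool.Agent.J4H22.IX

theorem result : ∀ c c' D : ℕ, 8 ≤ c → 8 ≤ c' →
    [RCForm Bool OkWeak c (fun n => ConvSet n (n / Nat.clog 2 n ^ D)),
      Form Bool OkFull c (fun n => 2 ^ (c * Nat.clog 2 n)),
      Form (Option (ℕ × ℕ) × ℕ) OkStrong c' (fun n => 2 ^ (c' * Nat.clog 2 n))].TFAE :=
  main3

end Pool.Agent.Results.MP_e016b3_lc.ConvolutionForm
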