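import Pool.Agent.J4H45.GT.Main

set_option autoImplicit false

/-!
# 3SUM-Indexing: quadratic space for tables of linear sketches over finite abelian groups

Two arrays `A`, `B` of `N` integers from `0, …, N ^ 3` are preprocessed. For a query `z` the answer
is yes if `z` is the sum of an element of `A` and an element of `B`. The memory has `c` cells. The
cell `σ` belongs to a finite abelian group `Γ σ` of order at most `2 ^ r` (every cell may have its
own group). Its sketch is the group element

  `∑ a σ z` over all `z` in `Q σ` with the answer yes, plus `f σ A`, plus `g σ B`,

where the set `Q σ`, the coefficients `a σ z` in `Γ σ` and the functions `f σ`, `g σ` are arbitrary;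
the contents of the cell are an arbitrary function of its sketch and of the `d` bits of a protocol
of two players who know one of the arrays each. The query procedure reads `t` cells adaptively,
without any bound on the computation, and everything may be random; every query is answered
correctly with probability at least `1 / 2 + δ`. Only the `s` cells with nonempty `Q σ` count.
Theorem:

  `δ ^ 10 * N ^ 2 ≤ 10 ^ 39 * ((r + d) * t) ^ 4 * (r * s + 1)`.

So polylogarithmic query time needs space `Ω~(N ^ 2)` in this model. For the groups `(Z / 2) ^ r`
this was known from a starting file (tables of exclusive ors of answers). New are all other groups: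
for instance, with `Γ σ = Z / 2 ^ r`, the cells may contain arbitrary functions of integers
`∑ a σ z + f σ A + g σ B` from `[0, 2 ^ r)`, such as the number of the queries in `Q σ` with the
answer yes, its value modulo any number, the disjunction of the answers, or thresholds of the
answers with weights.

Proof. By a coding of the pairs (element, set) a structure decides whether the set `i0` of a family
and the set `j0` of a second family meet, for `k ^ 2` pairs; every other answer is constant,
one-sided, or the answer for one pair. In the hard inputs for the pair `(i0, j0)` all other pairs
of sets meet or not in a way which is random, but independent of the two sets. The product of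
characters of the cells read on a path is a function of each side times a product of unit complex
numbers `ζ i j` over the pairs which meet. If the numbers `|1 - ζ i j| ^ 2` have a large total mass
outside of `(i0, j0)`, in the sense that the sum of `min(1, mass of the column)` over the columns or
the corresponding sum over the rows is at least `K`, then the expectation of this product is at
most `exp (- K / 128)` (Cauchy-Schwarz and second moments). The light products of characters have
`∑ |1 - ζ i j| ^ 2 ≤ 6 (K + 1) ^ 2` outside the pair; by a counting argument (decoding of random
subsets from products of characters) there are few pairs `(i0, j0)` for which a light product has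
`|1 - ζ i0 j0| > 1 / 20000`: at most `O ((K + 1) ^ 2 r s)`. For all other pairs the answer for
`(i0, j0)` may be left out of all cells with a small change of the behaviour of the query procedure:
`1 - ζ` is on the arc `|1 - ζ| ≤ ε` a combination of powers of `ζ` with the sum of the absolute
values of the coefficients at most `7 ε`, for all groups. Without this answer all cells are sums of
two functions of one side, and the corruption bound for disjointness applies.
-/

namespace Pool.Agent.Results.MP_e016b3_lc.GroupTables

open Pool.Agent.J4H45.GT

/-- Every random data structure for 3SUM-Indexing on arrays of `N` integers from `0, …, N ^ 3`, in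
which the contents of every cell are an arbitrary function of a linear sketch of the answers over a
finite abelian group of order at most `2 ^ r` (plus arbitrary functions of each array) and of `d`
bits of a protocol, with `s` cells in which answers enter, `t` probes and advantage `δ`, satisfies
`δ ^ 10 * N ^ 2 ≤ 10 ^ 39 * ((r + d) * t) ^ 4 * (r * s + 1)`. -/
theorem result (N t c s r d : ℕ) (Γ : Fin c → Type) [∀ σ, AddCommGroup (Γ σ)]
    [∀ σ, Fintype (Γ σ)] (Δ : Type) (δ : ℝ) (Ω : Type) [Fintype Ω] (p : Ω → ℝ)
    (D : Ω → SketchDS N c d Γ Δ) (ht : 1 ≤ t) (hr : 1 ≤ r) (hδ : 0 < δ) (hδ2 : δ ≤ 1 / 2)
    (hcard : ∀ σ, Fintype.card (Γ σ) ≤ 2 ^ r) (hs : ∀ ω, (D ω).space ≤ s)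
    (hD : SketchSolves p D t δ) :
    δ ^ 10 * (N : ℝ) ^ 2 ≤ 10 ^ 39 * (((r : ℝ) + d) * t) ^ 4 * (r * s + 1) :=
  fin N t c s r d Γ Δ δ Ω p D ht hr hδ hδ2 hcard hs hD

end Pool.Agent.Results.MP_e016b3_lc.GroupTables
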